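import Pool.Agent.W802.BA.Stms

set_option autoImplicit false

open MeasureTheory Set Filter Topology

namespace Pool.Agent.W728.BA

open Pool.Agent.W779.Morrey Pool.Agent.W802.BA

theorem prod_lower {c C x y X Y : ℝ} (hc : |c| ≤ C) (hx : x ^ 2 ≤ X) (hy : y ^ 2 ≤ Y) :
    |c * x * y| ≤ C * (X + Y) / 2 := by
  have hC : 0 ≤ C := (abs_nonneg c).trans hc
  have h1 : |x * y| ≤ (X + Y) / 2 := by
    rw [abs_le]
    constructor
    · nlinarith [sq_nonneg (x + y)]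
    · nlinarith [sq_nonneg (x - y)]
  have h2 : |c * x * y| = |c| * |x * y| := by rw [mul_assoc, abs_mul]
  rw [h2]
  have h3 : 0 ≤ (X + Y) / 2 := (abs_nonneg _).trans h1
  calc |c| * |x * y| ≤ C * ((X + Y) / 2) := mul_le_mul hc h1 (abs_nonneg _) hC
    _ = _ := by ring

theorem lagr_a (F G : E) : da F G ^ 2 + wa F G ^ 2 = pP F * pP G := by
  simp only [da, wa, pP]; ring
theorem lagr_b (F G : E) : db F G ^ 2 + wb F G ^ 2 = pQ F * pQ G := by
  simp only [db, wb, pQ]; ring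

theorem div_sq_le {x s X P : ℝ} (hs : 0 < s) (h1 : P ≤ s ^ 2) (hX : 0 ≤ X)
    (h2 : x ^ 2 ≤ P * X) : (x / s) ^ 2 ≤ X := by
  rw [div_pow, div_le_iff₀ (by positivity)]
  nlinarith

theorem da_le {s : ℝ} {F : E} (G : E) (hs : 0 < s) (h1 : pP F ≤ s ^ 2) :
    (da F G / s) ^ 2 ≤ pP G :=
  div_sq_le hs h1 (pP_nonneg G) (by nlinarith [lagr_a F G, sq_nonneg (wa F G)])
theorem wa_le {s : ℝ} {F : E} (G : E) (hs : 0 < s) (h1 : pP F ≤ s ^ 2) :
    (wa F G / s) ^ 2 ≤ pP G :=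
  div_sq_le hs h1 (pP_nonneg G) (by nlinarith [lagr_a F G, sq_nonneg (da F G)])
theorem db_le {t : ℝ} {F : E} (G : E) (ht : 0 < t) (h1 : pQ F ≤ t ^ 2) :
    (db F G / t) ^ 2 ≤ pQ G :=
  div_sq_le ht h1 (pQ_nonneg G) (by nlinarith [lagr_b F G, sq_nonneg (wb F G)])
theorem wb_le {t : ℝ} {F : E} (G : E) (ht : 0 < t) (h1 : pQ F ≤ t ^ 2) :
    (wb F G / t) ^ 2 ≤ pQ G :=
  div_sq_le ht h1 (pQ_nonneg G) (by nlinarith [lagr_b F G, sq_nonneg (db F G)])

theorem abs_wa (G H : E) : |wa G H| ≤ (pP G + pP H) / 2 := by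
  have h := lagr_a G H
  rw [abs_le]
  simp only [wa, pP]
  constructor
  · nlinarith [sq_nonneg (a1 G + a2 H), sq_nonneg (a2 G - a1 H)]
  · nlinarith [sq_nonneg (a1 G - a2 H), sq_nonneg (a2 G + a1 H)]
theorem abs_wb (G H : E) : |wb G H| ≤ (pQ G + pQ H) / 2 := by
  rw [abs_le]
  simp only [wb, pQ]
  constructor
  · nlinarith [sq_nonneg (b1 G + b2 H), sq_nonneg (b2 G - b1 H)]
  · nlinarith [sq_nonneg (b1 G - b2 H), sq_nonneg (b2 G + b1 H)]

theorem H2_lower {fs ft fss fst ftt : ℝ → ℝ → ℝ} {s t C : ℝ} {F : E} (G : E) (hs : 0 < s)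
    (ht : 0 < t) (hsF : pP F ≤ s ^ 2) (htF : pQ F ≤ t ^ 2) (hC : 0 ≤ C)
    (k1 : |fss s t| ≤ C) (k2 : |fst s t| ≤ C) (k3 : |ftt s t| ≤ C) (k4 : |fs s t| ≤ C * s)
    (k5 : -(C * t) ≤ ft s t) :
    -(3 * C * (pP G + pQ G)) ≤ H2 fs ft fss fst ftt s t F G := by
  unfold H2
  have hu := da_le G hs hsF
  have hv := db_le G ht htF
  set u := da F G / s
  set v := db F G / t
  have e1 : -C ≤ fs s t / s := by
    rw [le_div_iff₀ hs]
    have := (abs_le.1 k4).1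
    linarith
  have e2 : -C ≤ ft s t / t := by
    rw [le_div_iff₀ ht]
    linarith
  have d1 := (abs_le.1 (prod_lower k1 hu hu)).1
  have d2 := (abs_le.1 (prod_lower k2 hu hv)).1
  have d3 := (abs_le.1 (prod_lower k3 hv hv)).1
  have d4 : -(C * pP G) ≤ fs s t / s * (pP G - u ^ 2) := by
    have h0 : 0 ≤ pP G - u ^ 2 := by linarith
    have h1 : -C * (pP G - u ^ 2) ≤ fs s t / s * (pP G - u ^ 2) :=
      mul_le_mul_of_nonneg_right e1 h0
    nlinarith [mul_nonneg hC (sq_nonneg u)]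
  have d5 : -(C * pQ G) ≤ ft s t / t * (pQ G - v ^ 2) := by
    have h0 : 0 ≤ pQ G - v ^ 2 := by linarith
    have h1 : -C * (pQ G - v ^ 2) ≤ ft s t / t * (pQ G - v ^ 2) :=
      mul_le_mul_of_nonneg_right e2 h0
    nlinarith [mul_nonneg hC (sq_nonneg v)]
  nlinarith [d1, d2, d3, d4, d5]

theorem T2_lower {α αs αt β βs βt : ℝ → ℝ → ℝ} {s t C : ℝ} {F : E} (G H : E) (hs : 0 < s)
    (ht : 0 < t) (hsF : pP F ≤ s ^ 2) (htF : pQ F ≤ t ^ 2)
    (k1 : |α s t| ≤ C) (k2 : s * |αs s t| ≤ C) (k3 : s * |αt s t| ≤ C)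
    (k4 : |β s t| ≤ C) (k5 : t * |βs s t| ≤ C) (k6 : t * |βt s t| ≤ C) :
    -(4 * C * (pP G + pQ G + (pP H + pQ H))) ≤ T2 α αs αt β βs βt s t F G H := by
  have hC : 0 ≤ C := (abs_nonneg _).trans k1
  have e2 : |s * αs s t| ≤ C := by rw [abs_mul, abs_of_pos hs]; exact k2
  have e3 : |s * αt s t| ≤ C := by rw [abs_mul, abs_of_pos hs]; exact k3
  have e5 : |t * βs s t| ≤ C := by rw [abs_mul, abs_of_pos ht]; exact k5
  have e6 : |t * βt s t| ≤ C := by rw [abs_mul, abs_of_pos ht]; exact k6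
  have uG := da_le G hs hsF
  have uH := da_le H hs hsF
  have vG := db_le G ht htF
  have vH := db_le H ht htF
  have pG := wa_le G hs hsF
  have pH := wa_le H hs hsF
  have qG := wb_le G ht htF
  have qH := wb_le H ht htF
  have r1 := (abs_le.1 (prod_lower e2 uG pH)).1
  have r2 := (abs_le.1 (prod_lower e3 vG pH)).1
  have r3 := (abs_le.1 (prod_lower e2 uH pG)).2
  have r4 := (abs_le.1 (prod_lower e3 vH pG)).2
  have r5 := (abs_le.1 (prod_lower e5 uG qH)).1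
  have r6 := (abs_le.1 (prod_lower e6 vG qH)).1
  have r7 := (abs_le.1 (prod_lower e5 uH qG)).2
  have r8 := (abs_le.1 (prod_lower e6 vH qG)).2
  have r9 : -(C * (pP G + pP H)) ≤ 2 * α s t * wa G H := by
    have h1 : |α s t * wa G H| ≤ C * ((pP G + pP H) / 2) := by
      rw [abs_mul]
      exact mul_le_mul k1 (abs_wa G H) (abs_nonneg _) hC
    have := (abs_le.1 h1).1
    linarith
  have r10 : -(C * (pQ G + pQ H)) ≤ 2 * β s t * wb G H := by
    have h1 : |β s t * wb G H| ≤ C * ((pQ G + pQ H) / 2) := by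
      rw [abs_mul]
      exact mul_le_mul k4 (abs_wb G H) (abs_nonneg _) hC
    have := (abs_le.1 h1).1
    linarith
  have key : T2 α αs αt β βs βt s t F G H =
      s * αs s t * (da F G / s) * (wa F H / s) + s * αt s t * (db F G / t) * (wa F H / s)
      - s * αs s t * (da F H / s) * (wa F G / s) - s * αt s t * (db F H / t) * (wa F G / s)
      + 2 * α s t * wa G H
      + (t * βs s t * (da F G / s) * (wb F H / t) + t * βt s t * (db F G / t) * (wb F H / t)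
      - t * βs s t * (da F H / s) * (wb F G / t) - t * βt s t * (db F H / t) * (wb F G / t))
      + 2 * β s t * wb G H := by
    unfold T2
    have hs' : s ≠ 0 := hs.ne'
    have ht' : t ≠ 0 := ht.ne'
    field_simp
    ring
  rw [key]
  have n1 := mul_nonneg hC (pP_nonneg G)
  have n2 := mul_nonneg hC (pP_nonneg H)
  have n3 := mul_nonneg hC (pQ_nonneg G)
  have n4 := mul_nonneg hC (pQ_nonneg H)
  nlinarith [r1, r2, r3, r4, r5, r6, r7, r8, r9, r10, n1, n2, n3, n4]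

theorem ent_le (F : E) (i j : Fin 2) : |F i j| ≤ ‖F‖ :=
  ((Real.norm_eq_abs _).symm.le.trans (norm_le_pi_norm (F i) j)).trans (norm_le_pi_norm F i)

theorem pP_le (F : E) : pP F ≤ 2 * ‖F‖ ^ 2 := by
  have h00 := abs_le.1 (ent_le F 0 0)
  have h01 := abs_le.1 (ent_le F 0 1)
  have h10 := abs_le.1 (ent_le F 1 0)
  have h11 := abs_le.1 (ent_le F 1 1)
  have e1 : (a1 F) ^ 2 ≤ ‖F‖ ^ 2 := by
    rw [a1_apply]
    exact sq_le_sq' (by linarith [h00.1, h11.1]) (by linarith [h00.2, h11.2])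
  have e2 : (a2 F) ^ 2 ≤ ‖F‖ ^ 2 := by
    rw [a2_apply]
    exact sq_le_sq' (by linarith [h10.1, h01.2]) (by linarith [h10.2, h01.1])
  unfold pP
  linarith

theorem pQ_le (F : E) : pQ F ≤ 2 * ‖F‖ ^ 2 := by
  have h00 := abs_le.1 (ent_le F 0 0)
  have h01 := abs_le.1 (ent_le F 0 1)
  have h10 := abs_le.1 (ent_le F 1 0)
  have h11 := abs_le.1 (ent_le F 1 1)
  have e1 : (b1 F) ^ 2 ≤ ‖F‖ ^ 2 := by
    rw [b1_apply]
    exact sq_le_sq' (by linarith [h00.1, h11.2]) (by linarith [h00.2, h11.1])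
  have e2 : (b2 F) ^ 2 ≤ ‖F‖ ^ 2 := by
    rw [b2_apply]
    exact sq_le_sq' (by linarith [h10.1, h01.1]) (by linarith [h10.2, h01.2])
  unfold pQ
  linarith

theorem sg_pos {ε : ℝ} (hε : 0 < ε) (F : E) : 0 < sg ε F :=
  Real.sqrt_pos.2 (add_pos_of_nonneg_of_pos (pP_nonneg F) (by positivity))
theorem tg_pos {ε : ℝ} (hε : 0 < ε) (F : E) : 0 < tg ε F :=
  Real.sqrt_pos.2 (add_pos_of_nonneg_of_pos (pQ_nonneg F) (by positivity))

theorem sg_sq (ε : ℝ) (F : E) : pP F ≤ sg ε F ^ 2 := by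
  rw [sg, Real.sq_sqrt (add_nonneg (pP_nonneg F) (sq_nonneg ε))]
  linarith [sq_nonneg ε]
theorem tg_sq (ε : ℝ) (F : E) : pQ F ≤ tg ε F ^ 2 := by
  rw [tg, Real.sq_sqrt (add_nonneg (pQ_nonneg F) (sq_nonneg ε))]
  linarith [sq_nonneg ε]

theorem sg_le {ε R : ℝ} (hε : 0 ≤ ε) (hε1 : ε ≤ 1) {F : E} (hF : ‖F‖ ≤ R) :
    sg ε F ≤ √(2 * R ^ 2 + 1) := by
  refine Real.sqrt_le_sqrt ?_
  have h1 := pP_le F
  have h2 : ‖F‖ ^ 2 ≤ R ^ 2 := pow_le_pow_left₀ (norm_nonneg F) hF 2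
  nlinarith
theorem tg_le {ε R : ℝ} (hε : 0 ≤ ε) (hε1 : ε ≤ 1) {F : E} (hF : ‖F‖ ≤ R) :
    tg ε F ≤ √(2 * R ^ 2 + 1) := by
  refine Real.sqrt_le_sqrt ?_
  have h1 := pQ_le F
  have h2 : ‖F‖ ^ 2 ≤ R ^ 2 := pow_le_pow_left₀ (norm_nonneg F) hF 2
  nlinarith

theorem continuousAt_J {f fs ft fss fst ftt α αs αt β βs βt : ℝ → ℝ → ℝ}
    (hf : Rad2 f fs ft fss fst ftt) (hα : Rad1 α αs αt) (hβ : Rad1 β βs βt) (F G₀ G₁ : E)
    {s t : ℝ} (hs : 0 < s) (ht : 0 < t) :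
    ContinuousAt (fun q : ℝ × ℝ => J fs ft fss fst ftt α αs αt β βs βt q.1 q.2 F G₀ G₁)
      (s, t) := by
  have hU : (Ioi (0:ℝ) ×ˢ Ioi (0:ℝ)) ∈ 𝓝 (s, t) :=
    (isOpen_Ioi.prod isOpen_Ioi).mem_nhds ⟨hs, ht⟩
  have c1 : ContinuousAt (fun q : ℝ × ℝ => fs q.1 q.2) (s, t) := (hf.ds s t hs ht).continuousAt
  have c2 : ContinuousAt (fun q : ℝ × ℝ => ft q.1 q.2) (s, t) := (hf.dt s t hs ht).continuousAt
  have c3 : ContinuousAt (fun q : ℝ × ℝ => fss q.1 q.2) (s, t) := hf.css.continuousAt hU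
  have c4 : ContinuousAt (fun q : ℝ × ℝ => fst q.1 q.2) (s, t) := hf.cst.continuousAt hU
  have c5 : ContinuousAt (fun q : ℝ × ℝ => ftt q.1 q.2) (s, t) := hf.ctt.continuousAt hU
  have c6 : ContinuousAt (fun q : ℝ × ℝ => α q.1 q.2) (s, t) := (hα.d0 s t hs ht).continuousAt
  have c7 : ContinuousAt (fun q : ℝ × ℝ => αs q.1 q.2) (s, t) := hα.cs.continuousAt hU
  have c8 : ContinuousAt (fun q : ℝ × ℝ => αt q.1 q.2) (s, t) := hα.ct.continuousAt hU
  have c9 : ContinuousAt (fun q : ℝ × ℝ => β q.1 q.2) (s, t) := (hβ.d0 s t hs ht).continuousAt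
  have c10 : ContinuousAt (fun q : ℝ × ℝ => βs q.1 q.2) (s, t) := hβ.cs.continuousAt hU
  have c11 : ContinuousAt (fun q : ℝ × ℝ => βt q.1 q.2) (s, t) := hβ.ct.continuousAt hU
  have s1 : ContinuousAt (fun q : ℝ × ℝ => q.1) (s, t) := continuousAt_fst
  have t1 : ContinuousAt (fun q : ℝ × ℝ => q.2) (s, t) := continuousAt_snd
  have ds : ∀ c : ℝ, ContinuousAt (fun q : ℝ × ℝ => c / q.1) (s, t) := fun c =>
    continuousAt_const.div s1 hs.ne'
  have dt : ∀ c : ℝ, ContinuousAt (fun q : ℝ × ℝ => c / q.2) (s, t) := fun c =>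
    continuousAt_const.div t1 ht.ne'
  have hH : ∀ G : E, ContinuousAt (fun q : ℝ × ℝ => H2 fs ft fss fst ftt q.1 q.2 F G)
      (s, t) := by
    intro G
    unfold H2
    exact ((((c3.mul ((ds _).pow 2)).add ((((continuousAt_const.mul c4).mul (ds _)).mul (dt _)))).add
      (c5.mul ((dt _).pow 2))).add ((c1.div s1 hs.ne').mul (continuousAt_const.sub
        ((ds _).pow 2)))).add ((c2.div t1 ht.ne').mul (continuousAt_const.sub ((dt _).pow 2)))
  have hT : ContinuousAt (fun q : ℝ × ℝ => T2 α αs αt β βs βt q.1 q.2 F G₀ G₁) (s, t) := by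
    unfold T2
    exact (((((((c7.mul (ds _)).add (c8.mul (dt _))).mul continuousAt_const).sub
      (((c7.mul (ds _)).add (c8.mul (dt _))).mul continuousAt_const)).add
      ((continuousAt_const.mul c6).mul continuousAt_const)).add
      (((c10.mul (ds _)).add (c11.mul (dt _))).mul continuousAt_const)).sub
      (((c10.mul (ds _)).add (c11.mul (dt _))).mul continuousAt_const)).add
      ((continuousAt_const.mul c9).mul continuousAt_const)
  unfold J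
  exact ((hH G₀).add (hH G₁)).add hT

theorem tendsto_eps : Tendsto (fun k : ℕ => 1 / ((k : ℝ) + 1)) atTop (𝓝[>] (0:ℝ)) :=
  tendsto_nhdsWithin_iff.2 ⟨tendsto_one_div_add_atTop_nhds_zero_nat,
    Eventually.of_forall fun k => mem_Ioi.2 (by positivity)⟩

theorem iso (h1 : S_Flow) (h2 : S_Calc) (h3 : S_Block) : S_Iso := by
  intro f fs ft fss fst ftt α αs αt β βs βt hc W hW hlim
  have hε : ∀ k : ℕ, 0 < 1 / ((k : ℝ) + 1) := fun k => by positivity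
  have hε1 : ∀ k : ℕ, 1 / ((k : ℝ) + 1) ≤ 1 := fun k => by
    rw [div_le_one (by positivity)]
    have : (0:ℝ) ≤ k := Nat.cast_nonneg k
    linarith
  have hcalc := fun k : ℕ => h2 f fs ft fss fst ftt α αs αt β βs βt hc.rad hc.rα hc.rβ
    (1 / ((k : ℝ) + 1)) (hε k)
  refine h1 W (fun k => Wr f (1 / ((k : ℝ) + 1))) (fun k => θr α β (1 / ((k : ℝ) + 1))) hW
    (fun k => (hcalc k).1) (fun k => (hcalc k).2.1) (fun F => (hlim F).comp tendsto_eps) ?_ ?_ ?_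
  · intro R
    obtain ⟨C, hC, hb⟩ := hc.bound (√(2 * R ^ 2 + 1))
    refine ⟨C, fun k F hF => ?_⟩
    exact (hb _ _ (sg_pos (hε k) F) (tg_pos (hε k) F) (sg_le (hε k).le (hε1 k) hF)
      (tg_le (hε k).le (hε1 k) hF)).1
  · intro R
    obtain ⟨C, hC, hb⟩ := hc.bound (√(2 * R ^ 2 + 1))
    refine ⟨28 * C, fun k F G₀ G₁ hF => ?_⟩
    have hs := sg_pos (hε k) F
    have ht := tg_pos (hε k) F
    obtain ⟨-, k1, k2, k3, k4, k5, k6, k7, k8, k9, k10, k11⟩ := hb _ _ hs ht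
      (sg_le (hε k).le (hε1 k) hF) (tg_le (hε k).le (hε1 k) hF)
    rw [(hcalc k).2.2 F G₀ G₁]
    unfold J
    have e0 := H2_lower G₀ hs ht (sg_sq _ F) (tg_sq _ F) hC k1 k2 k3 k4 k5
    have e1 := H2_lower G₁ hs ht (sg_sq _ F) (tg_sq _ F) hC k1 k2 k3 k4 k5
    have e2 := T2_lower G₀ G₁ hs ht (sg_sq _ F) (tg_sq _ F) k6 k7 k8 k9 k10 k11
    have n1 := mul_le_mul_of_nonneg_left (pP_le G₀) hC
    have n2 := mul_le_mul_of_nonneg_left (pP_le G₁) hC
    have n3 := mul_le_mul_of_nonneg_left (pQ_le G₀) hC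
    have n4 := mul_le_mul_of_nonneg_left (pQ_le G₁) hC
    nlinarith [e0, e1, e2, n1, n2, n3, n4]
  · intro F G₀ G₁ hP hQ hG δ hδ
    have hP0 : 0 < pP F := lt_of_le_of_ne (pP_nonneg F) (Ne.symm hP)
    have hQ0 : 0 < pQ F := lt_of_le_of_ne (pQ_nonneg F) (Ne.symm hQ)
    have hs : 0 < √(pP F) := Real.sqrt_pos.2 hP0
    have ht : 0 < √(pQ F) := Real.sqrt_pos.2 hQ0
    have hpos : 0 ≤ J fs ft fss fst ftt α αs αt β βs βt (√(pP F)) (√(pQ F)) F G₀ G₁ :=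
      h3 fs ft fss fst ftt α αs αt β βs βt _ _ F G₀ G₁ hs ht
        (fun x y z w h => hc.cert _ _ x y z w hs ht h) (Real.sq_sqrt hP0.le)
        (Real.sq_sqrt hQ0.le) hG
    have l1 : Tendsto (fun k : ℕ => sg (1 / ((k : ℝ) + 1)) F) atTop (𝓝 (√(pP F))) := by
      have : Tendsto (fun k : ℕ => √(pP F + (1 / ((k : ℝ) + 1)) ^ 2)) atTop
          (𝓝 (√(pP F + 0 ^ 2))) :=
        ((tendsto_one_div_add_atTop_nhds_zero_nat.pow 2).const_add (pP F)).sqrt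
      simpa [sg] using this
    have l2 : Tendsto (fun k : ℕ => tg (1 / ((k : ℝ) + 1)) F) atTop (𝓝 (√(pQ F))) := by
      have : Tendsto (fun k : ℕ => √(pQ F + (1 / ((k : ℝ) + 1)) ^ 2)) atTop
          (𝓝 (√(pQ F + 0 ^ 2))) :=
        ((tendsto_one_div_add_atTop_nhds_zero_nat.pow 2).const_add (pQ F)).sqrt
      simpa [tg] using this
    have l3 : Tendsto (fun k : ℕ => (sg (1 / ((k : ℝ) + 1)) F, tg (1 / ((k : ℝ) + 1)) F)) atTop
        (𝓝 (√(pP F), √(pQ F))) := l1.prodMk_nhds l2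
    have l4 := (continuousAt_J hc.rad hc.rα hc.rβ F G₀ G₁ hs ht).tendsto.comp l3
    have l5 := l4.eventually (lt_mem_nhds (lt_of_lt_of_le (neg_lt_zero.2 hδ) hpos))
    filter_upwards [l5] with k hk
    rw [(hcalc k).2.2 F G₀ G₁]
    exact le_of_lt hk

end Pool.Agent.W728.BA
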